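import Pool.Agent.H73.CC.ACC

/-!
# Joint ergodicity of compactly correlated sequences, for all ergodic transformations

Let `a_1, ..., a_ℓ` be good for equidistribution.  If the sequences are compactly correlated, for instance if the laws of
`(a_1(n), ..., a_ℓ(n))`, `n < N`, are uniformly absolutely continuous with respect to product measures on `ℤ^ℓ`, then the
averages of `f_1(T_1^{a_1(n)} x) ... f_ℓ(T_ℓ^{a_ℓ(n)} x)` converge in `L²` to the product of the integrals for all ergodic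
invertible measure preserving transformations `T_1, ..., T_ℓ` of a probability space, which need not commute.
In particular (`T_1 = ... = T_ℓ`) the sequences are jointly ergodic for every ergodic system.
-/

namespace Pool.Agent.Results.MP_63fdde_an.CompactCorrelation

open MeasureTheory

/-- The sequences are uniformly compactly correlated (in the given order): for every `k` and `ε` there is `R` such that
for every `N` the functions `g` of `n`, bounded by `1`, which depend only on the values `a_i(n)`, `i > k`, are covered by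
`R` balls of radius `ε` for the pseudometric `sup_h |1/N ∑_{n < N} h(n) (g(n) - g'(n))|`, where `h` runs over the functions
bounded by `1` which depend only on `a_k(n)`. -/
def UC {ℓ : ℕ} (a : Fin ℓ → ℕ → ℤ) : Prop :=
  ∀ k : Fin ℓ, ∀ ε : ℝ, 0 < ε → ∃ R : ℕ, ∀ N : ℕ, ∃ c : Fin R → ℕ → ℂ,
    ∀ g : ℕ → ℂ, (∀ n, ‖g n‖ ≤ 1) → (∀ m n, (∀ i, k < i → a i m = a i n) → g m = g n) →
      ∃ r, ∀ h : ℕ → ℂ, (∀ n, ‖h n‖ ≤ 1) → (∀ m n, a k m = a k n → h m = h n) →
        ‖(1 / (N : ℂ)) * ∑ n ∈ Finset.range N, h n * (g n - c r n)‖ ≤ ε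

/-- The laws of `(a_1(n), ..., a_ℓ(n))`, `n < N`, are uniformly absolutely continuous with respect to products
`p_1 x ... x p_ℓ` of probability (or smaller) measures on `ℤ`, which may depend on `N` and `ε`: for every `ε` there is `C`
such that for every `N` the density is at most `C` after removing at most `ε N` of the indices `n < N`. -/
def AC {ℓ : ℕ} (a : Fin ℓ → ℕ → ℤ) : Prop :=
  ∀ ε : ℝ, 0 < ε → ∃ C : ℝ, ∀ N : ℕ, ∃ (p : Fin ℓ → ℤ → ℝ) (G : Finset ℕ),
    (∀ i z, 0 ≤ p i z) ∧ (∀ i (S : Finset ℤ), ∑ z ∈ S, p i z ≤ 1) ∧ G ⊆ Finset.range N ∧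
    (N : ℝ) - G.card ≤ ε * N ∧
    ∀ v : Fin ℓ → ℤ, ((G.filter fun n => ∀ i, a i n = v i).card : ℝ) ≤ C * N * ∏ i, p i (v i)

theorem result (ℓ : ℕ) (a : Fin ℓ → ℕ → ℤ)
    (ha : ∀ t : Fin ℓ → ℝ, (∃ j, Int.fract (t j) ≠ 0) →
      Filter.Tendsto
        (fun N : ℕ => (1 / (N : ℂ)) * ∑ n ∈ Finset.range N,
          Complex.exp (2 * (Real.pi : ℂ) * Complex.I * ((∑ j, (a j n : ℝ) * t j : ℝ) : ℂ)))
        Filter.atTop (nhds 0))
    (hc : (∃ π : Equiv.Perm (Fin ℓ), UC (fun i => a (π i))) ∨ AC a)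
    (X : Type*) [MeasurableSpace X] (μ : Measure X) [IsProbabilityMeasure μ]
    (T : Fin ℓ → Equiv.Perm X) (hTs : ∀ i, Measurable (T i).symm) (hT : ∀ i, Ergodic (T i) μ)
    (f : Fin ℓ → X → ℝ) (hf : ∀ j, Measurable (f j)) (hb : ∀ j, ∃ C : ℝ, ∀ x, |f j x| ≤ C) :
    Filter.Tendsto
      (fun N : ℕ => ∫ x, (((1 / (N : ℝ)) * ∑ n ∈ Finset.range N,
          ∏ j, f j ((T j ^ (a j n)) x)) - ∏ j, ∫ y, f j y ∂μ) ^ 2 ∂μ)
      Filter.atTop (nhds 0) := by
  rcases hc with ⟨π, hc⟩ | hc
  · have ha' : H33.HS.Good (fun i => a (π i)) := by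
      intro t ht
      obtain ⟨j, hj⟩ := ht
      have h1 := ha (fun i => t (π.symm i)) ⟨π j, by simpa using hj⟩
      refine h1.congr fun N => ?_
      congr 1
      refine Finset.sum_congr rfl fun n _ => ?_
      have h2 : ∑ j, (a j n : ℝ) * t (π.symm j) = ∑ j, (a (π j) n : ℝ) * t j := by
        rw [← Equiv.sum_comp π]
        simp
      rw [h2]
    have h1 := H73.CC.joint_comp (μ := μ) (T := fun i => T (π i)) ha' hc (fun i => hT (π i))
      (fun i => hTs (π i)) (fun i => f (π i)) (fun i => hf (π i)) (fun i => hb (π i))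
    refine h1.congr fun N => ?_
    refine integral_congr_ae (Filter.Eventually.of_forall fun x => ?_)
    have h2 : ∀ n, ∏ j, f (π j) ((T (π j) ^ (a (π j) n)) x) = ∏ j, f j ((T j ^ (a j n)) x) :=
      fun n => Equiv.prod_comp π (fun j => f j ((T j ^ (a j n)) x))
    have h3 : ∏ j, ∫ y, f (π j) y ∂μ = ∏ j, ∫ y, f j y ∂μ :=
      Equiv.prod_comp π (fun j => ∫ y, f j y ∂μ)
    simp only [h2, h3]
  · exact H73.CC.joint_comp ha (H73.CC.comp_of_ac hc) hT hTs f hf hb

end Pool.Agent.Results.MP_63fdde_an.CompactCorrelation
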