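import Pool.Agent.H73.PM.Base

/-!
# Joint ergodicity for systems in which pairwise mixing implies multiple mixing, and for towers over them

Let `a` be good for equidistribution and `T` ergodic.  Let `m₁` be a factor which contains the eigenfunctions and has the
following property: along every filter of `k`-tuples of times, if all pairs of functions (the first one orthogonal to the
eigenfunctions) decorrelate, then so do `k` functions, one of which is orthogonal to the eigenfunctions.  Then the averages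
converge to the product of the integrals for all bounded functions which are measurable with respect to a transfinite tower of
compact and relatively mixing extensions of `m₁`.
-/

namespace Pool.Agent.Results.MP_63fdde_an.PairwiseMixing

open MeasureTheory

/-- Pairwise mixing along tuples of times implies mixing, for `m`-measurable functions and relative to the eigenfunctions
(`kron μ T` is the σ-algebra generated by the eigenfunctions): for every filter `F` of `k`-tuples `n` of integers such that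
`∫ f(T^{n_i} x) g(T^{n_j} x) dμ → 0` along `F` for all `i ≠ j` and all bounded `m`-measurable `f`, `g` with
`E(f | kron) = 0`, the integrals `∫ ∏ f_i(T^{n_i} x) dμ` tend to `0` along `F` for all bounded `m`-measurable
`f_1, ..., f_k` with `E(f_i | kron) = 0` for some `i`. -/
def PairMix {X : Type*} (m : MeasurableSpace X) [m₀ : MeasurableSpace X] (μ : Measure X)
    (T : Equiv.Perm X) : Prop :=
  ∀ (k : ℕ) (F : Filter (Fin k → ℤ)),
    (∀ i j, i ≠ j → ∀ f g : X → ℂ, H33.HS.Gm m f → H33.HS.Gm m g →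
      μ[f | H33.HS.kron μ T] =ᵐ[μ] (fun _ => 0) →
      Filter.Tendsto (fun n : Fin k → ℤ => ∫ x, f ((T ^ n i) x) * g ((T ^ n j) x) ∂μ) F (nhds 0)) →
    ∀ f : Fin k → X → ℂ, (∀ i, H33.HS.Gm m (f i)) →
      (∃ i, μ[f i | H33.HS.kron μ T] =ᵐ[μ] (fun _ => 0)) →
      Filter.Tendsto (fun n : Fin k → ℤ => ∫ x, ∏ i, f i ((T ^ n i) x) ∂μ) F (nhds 0)

theorem result (ℓ : ℕ) (a : Fin ℓ → ℕ → ℤ)
    (ha : ∀ t : Fin ℓ → ℝ, (∃ j, Int.fract (t j) ≠ 0) →
      Filter.Tendsto
        (fun N : ℕ => (1 / (N : ℂ)) * ∑ n ∈ Finset.range N,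
          Complex.exp (2 * (Real.pi : ℂ) * Complex.I * ((∑ j, (a j n : ℝ) * t j : ℝ) : ℂ)))
        Filter.atTop (nhds 0))
    (X : Type*) (m₁ m : MeasurableSpace X) [m₀ : MeasurableSpace X] (μ : Measure X)
    [IsProbabilityMeasure μ] (T : Equiv.Perm X) (hTs : Measurable T.symm) (hT : Ergodic T μ)
    (hm₁ : m₁ ≤ m₀) (h1 : Measurable[m₁, m₁] T) (h2 : Measurable[m₁, m₁] T.symm)
    (hk : H33.HS.kron μ T ≤ m₁) (hp : PairMix m₁ μ T) (hm : H33.HS.TowerAll m₁ μ T m)
    (f : Fin ℓ → X → ℝ) (hf : ∀ j, Measurable[m] (f j)) (hb : ∀ j, ∃ C : ℝ, ∀ x, |f j x| ≤ C) :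
    Filter.Tendsto
      (fun N : ℕ => ∫ x, (((1 / (N : ℝ)) * ∑ n ∈ Finset.range N,
          ∏ j, f j ((T ^ (a j n)) x)) - ∏ j, ∫ y, f j y ∂μ) ^ 2 ∂μ)
      Filter.atTop (nhds 0) := by
  exact @Pool.Agent.H73.PM.joint_pm ℓ a X m m₁ m₀ μ _ T ha hTs hT ⟨hm₁, h1, h2⟩ hk hp hm f hf hb

end Pool.Agent.Results.MP_63fdde_an.PairwiseMixing
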