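import Pool.Agent.H9.GT.Final

/-!
# Uniform contraction for all sequences good for equidistribution and all ergodic systems

For all sequences `a_1, ..., a_ℓ` which are good for equidistribution, all ergodic invertible measure preserving
transformations `T` of a probability space and all measurable functions `f_1, ..., f_ℓ` with `|f_i| ≤ 1`, the `L¹` norms of
the averages of `f_1(T^{a_1(n)} x) ... f_ℓ(T^{a_ℓ(n)} x)` have upper limit at most `1 - c (1 - |∫ f_j|)` for every `j`, with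
the constant `c = 1 / (10^8 (ℓ+1) ((ℓ+1)!)^7)`, which only depends on `ℓ`.
-/

namespace Pool.Agent.Results.MP_63fdde_an.UniformContraction

open MeasureTheory

theorem result (ℓ : ℕ) (a : Fin ℓ → ℕ → ℤ)
    (ha : ∀ t : Fin ℓ → ℝ, (∃ j, Int.fract (t j) ≠ 0) →
      Filter.Tendsto
        (fun N : ℕ => (1 / (N : ℂ)) * ∑ n ∈ Finset.range N,
          Complex.exp (2 * (Real.pi : ℂ) * Complex.I * ((∑ j, (a j n : ℝ) * t j : ℝ) : ℂ)))
        Filter.atTop (nhds 0))
    (X : Type*) [MeasurableSpace X] (μ : Measure X) [IsProbabilityMeasure μ]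
    (T : Equiv.Perm X) (hTs : Measurable T.symm) (hT : Ergodic T μ)
    (f : Fin ℓ → X → ℝ) (hf : ∀ j, Measurable (f j)) (hb : ∀ j x, |f j x| ≤ 1) (j : Fin ℓ) :
    Filter.limsup (fun N : ℕ => ∫ x, |(1 / (N : ℝ)) * ∑ n ∈ Finset.range N,
        ∏ i, f i ((T ^ (a i n)) x)| ∂μ) Filter.atTop
      ≤ 1 - (1 - |∫ x, f j x ∂μ|) / (10 ^ 8 * ((ℓ : ℝ) + 1) * ((ℓ + 1).factorial : ℝ) ^ 7) :=
  Pool.Agent.H9.GT.final ha hTs hT hf hb j

end Pool.Agent.Results.MP_63fdde_an.UniformContraction
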