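import Pool.Agent.H33.HS.Final3

/-!
# Joint ergodicity for systems with a tower

Let `a` be good for equidistribution and `T` ergodic.  The averages converge to the product of the integrals for all
bounded functions which are measurable with respect to a factor `m` (for instance the whole σ-algebra) obtained by a
transfinite tower of compact extensions and of relatively mixing (of all orders) extensions from a factor with singular
spectrum (to which the eigenfunctions are added).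
-/

namespace Pool.Agent.Results.MP_63fdde_an.WholeTower

open MeasureTheory

theorem result (ℓ : ℕ) (a : Fin ℓ → ℕ → ℤ)
    (ha : ∀ t : Fin ℓ → ℝ, (∃ j, Int.fract (t j) ≠ 0) →
      Filter.Tendsto
        (fun N : ℕ => (1 / (N : ℂ)) * ∑ n ∈ Finset.range N,
          Complex.exp (2 * (Real.pi : ℂ) * Complex.I * ((∑ j, (a j n : ℝ) * t j : ℝ) : ℂ)))
        Filter.atTop (nhds 0))
    (X : Type*) (m₁ m : MeasurableSpace X) [m₀ : MeasurableSpace X] (μ : Measure X)
    [IsProbabilityMeasure μ] (T : Equiv.Perm X) (hTs : Measurable T.symm) (hT : Ergodic T μ)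
    (hm₁ : m₁ ≤ m₀) (h1 : Measurable[m₁, m₁] T) (h2 : Measurable[m₁, m₁] T.symm)
    (hs : ∀ f : X → ℂ, Measurable[m₁] f → (∃ B : ℝ, ∀ x, ‖f x‖ ≤ B) →
      ∃ σ : Measure (AddCircle (1 : ℝ)), IsFiniteMeasure σ ∧ σ.MutuallySingular volume ∧
        ∀ n : ℤ, ∫ x, f ((T ^ n) x) * (starRingEnd ℂ) (f x) ∂μ = ∫ t, fourier n t ∂σ)
    (hm : H33.HS.TowerAll (m₁ ⊔ H33.HS.kron μ T) μ T m)
    (f : Fin ℓ → X → ℝ) (hf : ∀ j, Measurable[m] (f j)) (hb : ∀ j, ∃ C : ℝ, ∀ x, |f j x| ≤ C) :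
    Filter.Tendsto
      (fun N : ℕ => ∫ x, (((1 / (N : ℝ)) * ∑ n ∈ Finset.range N,
          ∏ j, f j ((T ^ (a j n)) x)) - ∏ j, ∫ y, f j y ∂μ) ^ 2 ∂μ)
      Filter.atTop (nhds 0) := by
  refine @Pool.Agent.H33.HS.joint_all ℓ a X m m₁ m₀ μ _ T ha hTs hT ⟨hm₁, h1, h2⟩ ?_ hm f hf hb
  intro f hf
  exact hs f hf.1 hf.2

end Pool.Agent.Results.MP_63fdde_an.WholeTower
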